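import Pool.Agent.helper55.FLD.Spec

/-!
# FLD: row TL (traceless parts)
-/

namespace Pool.Agent.FLD

open Matrix

theorem TL_scalar {F : Type} [Field F] (z : Matrix (Fin 2) (Fin 2) F)
    (h : ∀ b : Matrix (Fin 2) (Fin 2) F, z * b = b * z) : z = z 0 0 • (1 : Matrix (Fin 2) (Fin 2) F) := by
  have h1 := h !![0, 1; 0, 0]
  have h2 := h !![0, 0; 1, 0]
  have a1 := congrFun (congrFun h1 0) 0
  have a2 := congrFun (congrFun h1 0) 1
  have a3 := congrFun (congrFun h2 0) 0
  simp [Matrix.mul_apply, Fin.sum_univ_two] at a1 a2 a3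
  ext i j
  fin_cases i <;> fin_cases j
  · simp
  · simp [a3]
  · simp [← a1]
  · simp [← a2]

/-- **Row TL** -/
theorem TL : TL_stmt := by
  intro F _ _
  have h2 : (2 : F) ≠ 0 := two_ne_zero
  have htr : ∀ x y z : Matrix (Fin 2) (Fin 2) F, z * x = 1 → (x * y * z).trace = y.trace := by
    intro x y z hzx
    rw [Matrix.trace_mul_comm, ← Matrix.mul_assoc, hzx, Matrix.one_mul]
  refine ⟨?_, ?_, ?_, ?_, ?_, ?_, ?_, ?_⟩
  · intro Y
    unfold tl
    rw [Matrix.trace_sub, Matrix.trace_smul, Matrix.trace_one, Fintype.card_fin]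
    simp only [smul_eq_mul]
    push_cast
    field_simp
    ring
  · intro Y hY
    unfold tl
    rw [hY]
    simp
  · intro Y Y'
    unfold tl
    rw [Matrix.trace_add, add_div, add_smul]
    abel
  · intro c Y
    unfold tl
    rw [Matrix.trace_smul, smul_sub, smul_smul, smul_eq_mul, mul_div_assoc]
  · intro G _ ρ g Y
    unfold tl
    have h1 : ρ g⁻¹ * ρ g = 1 := by rw [← map_mul]; simp
    have h1' : ρ g * ρ g⁻¹ = 1 := by rw [← map_mul]; simp
    rw [htr _ _ _ h1, Matrix.mul_sub, Matrix.sub_mul]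
    congr 1
    rw [Matrix.mul_smul, Matrix.smul_mul, Matrix.mul_one, h1']
  · intro Y W
    unfold tl
    rw [Matrix.sub_mul, Matrix.mul_sub, Matrix.mul_smul, Matrix.smul_mul, Matrix.one_mul, Matrix.mul_one]
    abel
  · intro Y Y' h b
    have h3 : Y - Y' = ((Y.trace / 2) - (Y'.trace / 2)) • (1 : Matrix (Fin 2) (Fin 2) F) := by
      unfold tl at h
      rw [sub_smul]
      have : Y - Y' = (Y - (Y.trace / 2) • 1) - (Y' - (Y'.trace / 2) • 1) +
          ((Y.trace / 2) • (1 : Matrix (Fin 2) (Fin 2) F) - (Y'.trace / 2) • 1) := by abel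
      rw [this, h, sub_self, zero_add]
    rw [h3, Matrix.smul_mul, Matrix.mul_smul, Matrix.one_mul, Matrix.mul_one]
  · intro x x' y y' hx hy hy' h
    have hx' : x' * x = 1 := mul_eq_one_comm.1 hx
    have hz : ∀ b : Matrix (Fin 2) (Fin 2) F, (y' * x) * b = b * (y' * x) := by
      intro b
      have e1 : y' * (x * b * x') * x = y' * (y * b * y') * x := by rw [h b]
      have e2 : y' * (x * b * x') * x = (y' * x) * b := by
        calc y' * (x * b * x') * x = (y' * x) * b * (x' * x) := by noncomm_ring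
          _ = (y' * x) * b := by rw [hx', Matrix.mul_one]
      have e3 : y' * (y * b * y') * x = b * (y' * x) := by
        calc y' * (y * b * y') * x = (y' * y) * b * (y' * x) := by noncomm_ring
          _ = b * (y' * x) := by rw [hy', Matrix.one_mul]
      rw [← e2, ← e3, e1]
    refine ⟨(y' * x) 0 0, ?_⟩
    have e4 := TL_scalar _ hz
    calc x = (y * y') * x := by rw [hy, Matrix.one_mul]
      _ = y * (y' * x) := by rw [Matrix.mul_assoc]
      _ = y * ((y' * x) 0 0 • (1 : Matrix (Fin 2) (Fin 2) F)) := by rw [← e4]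
      _ = (y' * x) 0 0 • y := by rw [Matrix.mul_smul, Matrix.mul_one]

end Pool.Agent.FLD
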